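import Pool.Agent.H84.ND.Targets1

/-!
# MP_70ba79_ag, board `ndc_modules`: row LBS
-/

set_option autoImplicit false

namespace Pool.Agent.H84.NDX

open MvPolynomial SC Pool.Agent.H27.LV Pool.Agent.H84.SM Pool.Agent.H84.ND

theorem pf_LBS (hGSM : T_GSM) (hSP1 : T_SP1) (hSP2 : T_SP2) (hSP3 : T_SP3)
    (hIRR : Pool.Agent.H84.SM.T_IRR) (hELB : Pool.Agent.H84.SM.T_ELB)
    (hCHN : Pool.Agent.H84.SM.T_CHN) : T_LBS := by
  intro k _ _ _ G d hd hG hG0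
  obtain ⟨K, iF, iA, iC, iZ, t, H, ht, hH, hsm⟩ := hGSM k G d (by omega) hG
  have hirr := hIRR K _ d (by omega) hsm
  obtain ⟨e1, he1⟩ := hELB K _ d hd hsm hirr
  refine ⟨e1, fun n I τ hI => ?_⟩
  have h1 := he1 n (τ + I * d) hI
  have h2 := hCHN K _ d hd hsm hirr n I τ
  obtain ⟨M, e, he, h3⟩ := hSP1 K _ d hd hsm n τ
  obtain ⟨hfin, h4⟩ := hSP2 k K t ht G H d e n M hG0 hG hH
  obtain ⟨V, hV, hVf, h5⟩ := hSP3 k G d (by omega) hG hG0 n τ M e he hfin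
  exact ⟨V, hV, hVf, by omega⟩

end Pool.Agent.H84.NDX
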