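import Pool.Agent.H84.ND.Targets2
import Pool.Agent.H88.SM.INT
import Pool.Agent.H27.LV.Curve

/-!
# MP_70ba79_ag, board `ndc_modules`: row NIN
-/

set_option autoImplicit false

namespace Pool.Agent.H84.NDX

open MvPolynomial SC Pool.Agent.H27.LV Pool.Agent.H84.SM Pool.Agent.H84.ND
open Pool.Agent.H88.SM (ge_iff aeval_mem)

theorem pf_NIN (hNCH : T_NCH) (hNDV : T_NDV) (hNGR : T_NGR) (hNEV : T_NEV) : T_NIN := by
  intro k K _ _ _ _ _ G d hd hG hsq s j hnode hsj v θ x hθ hxj hxs hGx n M τ N hN
  have hsj0 : s j ≠ 0 := by rw [hsj]; exact one_ne_zero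
  obtain ⟨h, r1, r2, hdt⟩ := hNCH k G d hd hG s hnode j hsj0
  obtain ⟨h', hh', hdiv⟩ := hNDV k G d hd hG hsq s j h r1 r2 hsj0 hdt
  obtain ⟨lam, g, hlam, hg, e1, e2⟩ := hNGR k K G d hd hG s j h r1 r2 hdt hsj v θ x hθ hxj hxs hGx
  have hev := hNEV k K G d j h r1 r2 hdt.eq θ x lam g hxj e1 e2 N
  obtain ⟨Q, hQ⟩ := hdiv n M τ N hN
  have hθ0 : ∀ z ∈ v.vs, θ z ∈ v.vs := by
    intro z hz
    by_cases h0 : z = 0
    · rw [h0, map_zero]; exact v.vs.zero_mem
    · rcases hθ z h0 with h1 | h1
      · rw [h1]; exact v.vs.zero_mem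
      · rw [DV.mem_vs] at hz ⊢
        omega
  have hx0 : ∀ i, x i ∈ v.vs := by
    intro i
    have h1 : x i - algebraMap k K (s i) ∈ v.vs := by
      rcases hxs i with h2 | h2
      · rw [h2]; exact v.vs.zero_mem
      · rw [DV.mem_vs]; omega
    have h3 : algebraMap k K (s i) ∈ v.vs := by rw [DV.mem_vs, v.ord_base]
    have := v.vs.add_mem _ _ h1 h3
    rwa [sub_add_cancel] at this
  have hlam' : lam ∈ v.vs := (ge_iff v _).1 hlam
  have hg' : g ∈ v.vs := (ge_iff v _).1 hg
  have hz : g * θ lam - lam * θ g ∈ v.vs :=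
    sub_mem (v.vs.mul_mem _ _ hg' (hθ0 _ hlam')) (v.vs.mul_mem _ _ hlam' (hθ0 _ hg'))
  have hP : ∀ i, (Sum.elim x ![lam, g, g * θ lam - lam * θ g] : Fin 3 ⊕ Fin 3 → K) i ∈ v.vs := by
    rintro (i | i)
    · exact hx0 i
    · fin_cases i
      · exact hlam'
      · exact hg'
      · exact hz
  have hQr := aeval_mem v _ hP Q
  have hcomp : ∀ f : MvPolynomial (Fin 3) k,
      aeval (Sum.elim x ![lam, g, g * θ lam - lam * θ g] : Fin 3 ⊕ Fin 3 → K)
        (aeval (xa (k := k)) f) = aeval x f := by
    intro f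
    have h3 : ((aeval (Sum.elim x ![lam, g, g * θ lam - lam * θ g] : Fin 3 ⊕ Fin 3 → K) :
        A2 k →ₐ[k] K).comp (aeval (xa (k := k)))) = aeval x := by
      refine MvPolynomial.algHom_ext fun i => ?_
      simp [xa]
    exact congrArg (fun F : MvPolynomial (Fin 3) k →ₐ[k] K => F f) h3
  have h1 := congrArg
    (aeval (Sum.elim x ![lam, g, g * θ lam - lam * θ g] : Fin 3 ⊕ Fin 3 → K)) hQ
  rw [map_mul, map_pow, hcomp, ← hev, map_mul, map_pow, gA, hcomp] at h1
  -- the value of `h'` is a unit
  have hu : aeval x h' ≠ 0 ∧ v.ord (aeval x h') = 0 := by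
    have h2 : ge v 1 (aeval x h' - algebraMap k K (eval s h')) := by
      have h3 : ∀ f : MvPolynomial (Fin 3) k, ge v 1 (aeval x f - algebraMap k K (eval s f)) := by
        intro f
        induction f using MvPolynomial.induction_on with
        | C a =>
          rw [algHom_C, eval_C, sub_self]
          exact ge_zero v 1
        | add p q hp hq =>
          have h4 := hp.add hq
          have h5 : aeval x (p + q) - algebraMap k K (eval s (p + q)) =
              aeval x p - algebraMap k K (eval s p) + (aeval x q - algebraMap k K (eval s q)) := by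
            rw [map_add, map_add, map_add]; ring
          rwa [h5]
        | mul_X p i hp =>
          have h4 := hp.mul ((ge_iff v _).2 (hx0 i))
          have h6 := (ge_const v (eval s p)).mul (hxs i)
          rw [add_zero] at h4
          rw [zero_add] at h6
          have h5 : aeval x (p * X i) - algebraMap k K (eval s (p * X i)) =
              (aeval x p - algebraMap k K (eval s p)) * x i +
                algebraMap k K (eval s p) * (x i - algebraMap k K (s i)) := by
            rw [map_mul, map_mul, map_mul, aeval_X, eval_X]; ring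
          rw [h5]
          exact h4.add h6
      exact h3 h'
    have h4 : algebraMap k K (eval s h') ≠ 0 := by
      rwa [Ne, FaithfulSMul.algebraMap_eq_zero_iff]
    have h5 : v.ord (algebraMap k K (eval s h')) = 0 := v.ord_base _
    have h6 := v.ord_add_eq_left (x := algebraMap k K (eval s h'))
      (y := aeval x h' - algebraMap k K (eval s h')) h4 (fun h7 => by
        have := h2.resolve_left h7
        omega)
    rw [add_sub_cancel] at h6
    exact ⟨h6.1, by rw [h6.2, h5]⟩
  have h2 : evc θ x N / aeval x G ^ M = (aeval x h' ^ M)⁻¹ *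
      aeval (Sum.elim x ![lam, g, g * θ lam - lam * θ g] : Fin 3 ⊕ Fin 3 → K) Q := by
    have h3 : aeval x h' ^ M ≠ 0 := pow_ne_zero _ hu.1
    have h4 : aeval x G ^ M ≠ 0 := pow_ne_zero _ hGx
    field_simp
    rw [← h1]
    ring
  rw [h2, ge_iff]
  refine v.vs.mul_mem _ _ ?_ hQr
  rw [DV.mem_vs, v.ord_inv, v.ord_pow, hu.2]
  simp

end Pool.Agent.H84.NDX
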